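import Pool.Agent.Helper27.KS.GoalsF
import Pool.Agent.Helper89.GP.Basic

/-!
# The law of a difference in the exponential model

Packet KS-GIN: `GinStmt` of Pool/Agent/Helper27/KS/GoalsF.lean, without hypotheses.
-/

namespace Pool.Agent.Helper94.KS

open MeasureTheory Filter Topology Finset
open Pool.Agent.Helper27.KS (nu GinStmt)
open Pool.Agent.Helper89.GP

variable {n : ℕ} {R : Fin n → Fin n → Prop}

/-- The coefficients sum to the probability that `u` is before `v`. -/
theorem sum_bq (u v : Fin n) :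
    ∑ k ∈ Finset.range n, bq R u v k = Pr R fun σ => po σ u < po σ v := by
  classical
  have h1 : ∀ k, bq R u v k = Ex R fun σ => if po σ v = po σ u + (k + 1) then 1 else 0 := by
    intro k
    unfold bq
    exact Pr_eq_Ex _
  simp_rw [h1]
  rw [← Ex_sum, Pr_eq_Ex]
  apply Ex_congr
  intro σ _
  by_cases h : po σ u < po σ v
  · rw [if_pos h, Finset.sum_eq_single (po σ v - po σ u - 1)]
    · rw [if_pos (by omega)]
    · intro k _ hk
      rw [if_neg (by omega)]
    · intro hk
      exact absurd (Finset.mem_range.2 (by have := po_lt_n σ v; omega)) hk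
  · rw [if_neg h]
    apply Finset.sum_eq_zero
    intro k _
    rw [if_neg (by omega)]

/-- The Gamma integral: integrability. -/
theorem gam_int (k : ℕ) :
    IntegrableOn (fun t : ℝ => Real.exp (-t) * t ^ k) (Set.Ioi 0) := by
  have h := Real.GammaIntegral_convergent (s := (k : ℝ) + 1) (by positivity)
  refine h.congr_fun (fun t _ => ?_) measurableSet_Ioi
  simp only [add_sub_cancel_right, Real.rpow_natCast]

/-- The Gamma integral: its value. -/
theorem gam_val (k : ℕ) :
    ∫ t in Set.Ioi (0 : ℝ), Real.exp (-t) * t ^ k = (k.factorial : ℝ) := by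
  rw [← Real.Gamma_nat_eq_factorial, Real.Gamma_eq_integral (by positivity)]
  refine setIntegral_congr_fun measurableSet_Ioi (fun t _ => ?_)
  simp only [add_sub_cancel_right, Real.rpow_natCast]

theorem bq_nonneg (u v : Fin n) (k : ℕ) : 0 ≤ bq R u v k := Pr_nonneg _

theorem Ff_nonneg (u v : Fin n) {t : ℝ} (ht : 0 ≤ t) : 0 ≤ Ff R u v t := by
  unfold Ff
  exact Finset.sum_nonneg fun k _ =>
    div_nonneg (mul_nonneg (bq_nonneg u v k) (pow_nonneg ht k)) (Nat.cast_nonneg _)

theorem Ff_cont (u v : Fin n) : Continuous (Ff R u v) := by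
  unfold Ff
  exact continuous_finsetSum _ fun k _ => by fun_prop

theorem Gd_nonneg (u v : Fin n) (t : ℝ) : 0 ≤ Gd R u v t := by
  unfold Gd
  split_ifs with h
  · exact mul_nonneg (Real.exp_pos _).le (Ff_nonneg u v h)
  · exact mul_nonneg (Real.exp_pos _).le (Ff_nonneg v u (by linarith [not_le.1 h]))

theorem Gd_meas (u v : Fin n) : Measurable (Gd R u v) := by
  unfold Gd
  refine Measurable.ite measurableSet_Ici ?_ ?_
  · exact (Real.measurable_exp.comp measurable_neg).mul (Ff_cont u v).measurable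
  · exact Real.measurable_exp.mul ((Ff_cont v u).measurable.comp measurable_neg)

theorem Gd_neg (u v : Fin n) {t : ℝ} (ht : t < 0) : Gd R u v t = Gd R v u (-t) := by
  unfold Gd
  rw [if_neg (not_le.2 ht), if_pos (by linarith), neg_neg]

/-- The mass of the positive half line. -/
theorem lint_Ioi (u v : Fin n) :
    ∫⁻ t in Set.Ioi (0 : ℝ), ENNReal.ofReal (Gd R u v t) =
      ENNReal.ofReal (Pr R fun σ => po σ u < po σ v) := by
  have e : Set.EqOn (Gd R u v)
      (fun t => ∑ k ∈ Finset.range n,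
        (bq R u v k / (k.factorial : ℝ)) * (Real.exp (-t) * t ^ k)) (Set.Ioi 0) := by
    intro t ht
    have ht' : (0 : ℝ) ≤ t := le_of_lt ht
    simp only [Gd, if_pos ht', Ff, Finset.mul_sum]
    refine Finset.sum_congr rfl fun k _ => ?_
    ring
  have hI : IntegrableOn (fun t => ∑ k ∈ Finset.range n,
      (bq R u v k / (k.factorial : ℝ)) * (Real.exp (-t) * t ^ k)) (Set.Ioi 0) :=
    integrable_finsetSum _ fun k _ => (gam_int k).const_mul _
  have hI' : IntegrableOn (Gd R u v) (Set.Ioi 0) := hI.congr_fun e.symm measurableSet_Ioi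
  rw [← ofReal_integral_eq_lintegral_ofReal hI'
    (Filter.Eventually.of_forall fun t => Gd_nonneg u v t)]
  congr 1
  rw [setIntegral_congr_fun measurableSet_Ioi e,
    integral_finsetSum _ fun k _ => (gam_int k).const_mul _, ← sum_bq u v]
  refine Finset.sum_congr rfl fun k _ => ?_
  rw [integral_const_mul, gam_val, div_mul_cancel₀]
  exact_mod_cast k.factorial_ne_zero

/-- The mass of the negative half line. -/
theorem lint_Iio (u v : Fin n) :
    ∫⁻ t in Set.Iio (0 : ℝ), ENNReal.ofReal (Gd R u v t) =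
      ENNReal.ofReal (Pr R fun σ => po σ v < po σ u) := by
  rw [← lint_Ioi v u]
  have h := (Measure.measurePreserving_neg (volume : Measure ℝ)).setLIntegral_comp_preimage
    (measurableSet_Ioi (a := (0 : ℝ))) (f := fun t => ENNReal.ofReal (Gd R v u t))
    (ENNReal.measurable_ofReal.comp (Gd_meas v u))
  rw [← h]
  have hs : (Neg.neg : ℝ → ℝ) ⁻¹' Set.Ioi 0 = Set.Iio 0 := by
    ext t
    simp
  rw [hs]
  exact setLIntegral_congr_fun measurableSet_Iio fun t ht => by
    rw [Gd_neg u v ht]

theorem nu_Ioi (u v : Fin n) :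
    nu R u v (Set.Ioi 0) = ENNReal.ofReal (Pr R fun σ => po σ u < po σ v) := by
  unfold nu
  rw [withDensity_apply _ measurableSet_Ioi, lint_Ioi]

theorem nu_Iio (u v : Fin n) :
    nu R u v (Set.Iio 0) = ENNReal.ofReal (Pr R fun σ => po σ v < po σ u) := by
  unfold nu
  rw [withDensity_apply _ measurableSet_Iio, lint_Iio]

theorem nu_Ici (u v : Fin n) :
    nu R u v (Set.Ici 0) = ENNReal.ofReal (Pr R fun σ => po σ u < po σ v) := by
  unfold nu
  rw [withDensity_apply _ measurableSet_Ici, ← lint_Ioi u v]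
  exact (setLIntegral_congr Ioi_ae_eq_Ici).symm

theorem Pr_total (hR : (LX R).Nonempty) {u v : Fin n} (h : u ≠ v) :
    (Pr R fun σ => po σ v < po σ u) + (Pr R fun σ => po σ u < po σ v) = 1 := by
  rw [← Pr_true hR]
  refine (Pr_add (fun σ _ => ?_) fun σ _ h1 => ?_).symm
  · have := po_lt_or (σ := σ) h
    tauto
  · exact not_lt.2 h1.le

theorem nu_univ (hR : (LX R).Nonempty) {u v : Fin n} (h : u ≠ v) :
    nu R u v Set.univ = 1 := by
  have hd : Disjoint (Set.Iio (0 : ℝ)) (Set.Ici 0) := Set.Iio_disjoint_Ici le_rfl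
  rw [← Set.Iio_union_Ici (a := (0 : ℝ)), measure_union hd measurableSet_Ici, nu_Iio, nu_Ici,
    ← ENNReal.ofReal_add (Pr_nonneg _) (Pr_nonneg _), Pr_total hR h, ENNReal.ofReal_one]

/-- Goal GIN. -/
theorem gin : GinStmt := by
  intro n R u v hR huv
  refine ⟨Gd_meas u v, Gd_nonneg u v, ⟨nu_univ hR huv⟩, ?_, ?_⟩
  · rw [Measure.real, nu_Iio, ENNReal.toReal_ofReal (Pr_nonneg _)]
  · rw [Measure.real, nu_Ioi, ENNReal.toReal_ofReal (Pr_nonneg _)]

end Pool.Agent.Helper94.KS
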