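import Pool.Agent.Helper75.KS.GoalsX
import Pool.Agent.Helper83.GP.Cone
import Pool.Agent.Helper42.GP.GAM

/-!
# Packet KS-STR: the exponential model is the average of the images of the chamber law
-/

namespace Pool.Agent.Helper94.KS

open MeasureTheory Finset
open Pool.Agent.Helper75.KS
open Pool.Agent.Helper89.GP (LX Ch mem_LX)
open Pool.Agent.Helper83.GP (exists_Ch Ch_unique Ch_lt_iff Ch_meas inj_ae)

variable {n : ℕ}

theorem pre_Ch (σ : Equiv.Perm (Fin n)) (e : (Fin n → ℝ) ≃ᵐ (Fin n → ℝ))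
    (he : ∀ x a, e x a = x (σ a)) : e ⁻¹' Ch σ = Ch (1 : Equiv.Perm (Fin n)) := by
  ext x
  simp only [Set.mem_preimage, Ch, Set.mem_ofPred_eq, he, Equiv.Perm.coe_one, id_eq]
  constructor
  · rintro ⟨h1, h2⟩
    refine ⟨fun a => ?_, fun a b hab => ?_⟩
    · have := h1 (σ.symm a)
      rwa [Equiv.apply_symm_apply] at this
    · have := h2 (σ.symm a) (σ.symm b)
      rw [Equiv.apply_symm_apply, Equiv.apply_symm_apply] at this
      exact this hab
  · rintro ⟨h1, h2⟩
    exact ⟨fun a => h1 _, fun a b hab => h2 _ _ hab⟩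

/-- The image of the law of the increasing sequence. -/
theorem map_P0 (σ : Equiv.Perm (Fin n)) :
    (P0 n).map (fun x a => x (σ a)) = (volume.restrict (Ch σ)).withDensity wt := by
  obtain ⟨e, hmp, he⟩ := Pool.Agent.Helper42.GP.gam_mp σ
  have hfun : (fun (x : Fin n → ℝ) a => x (σ a)) = e := by
    funext x a
    exact (he x a).symm
  have hsup : ∀ x : Fin n → ℝ, wt (e x) = wt x := by
    intro x
    unfold wt
    simp_rw [he]
    rw [Equiv.iSup_comp (g := fun a => x a) σ]
  rw [hfun]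
  ext s hs
  have h1 := hmp.setLIntegral_comp_preimage_emb e.measurableEmbedding wt (s ∩ Ch σ)
  rw [Set.preimage_inter, pre_Ch σ e he] at h1
  simp_rw [hsup] at h1
  rw [Measure.map_apply e.measurable hs, P0, withDensity_apply _ (e.measurable hs),
    withDensity_apply _ hs, Measure.restrict_restrict (e.measurable hs),
    Measure.restrict_restrict hs, h1]

theorem cone_ae (R : Fin n → Fin n → Prop) :
    Cn R =ᵐ[volume] (⋃ σ ∈ LX R, Ch σ : Set (Fin n → ℝ)) := by
  filter_upwards [inj_ae] with x hx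
  apply propext
  constructor
  · rintro ⟨h1, h2⟩
    obtain ⟨σ, hσ⟩ := exists_Ch x h1 hx
    show x ∈ (⋃ σ ∈ LX R, Ch σ : Set (Fin n → ℝ))
    rw [Set.mem_iUnion₂]
    exact ⟨σ, mem_LX.2 fun a b hab => (Ch_lt_iff hσ).2 (h2 a b hab), hσ⟩
  · intro h
    have h' : x ∈ (⋃ σ ∈ LX R, Ch σ : Set (Fin n → ℝ)) := h
    rw [Set.mem_iUnion₂] at h'
    obtain ⟨σ, hσ, h2⟩ := h'
    exact ⟨h2.1, fun a b hab => h2.2 a b (mem_LX.1 hσ a b hab)⟩

/-- **STR** -/
theorem str : StrStmt := by
  intro n R hR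
  unfold mu
  congr 1
  rw [Finset.sum_congr rfl fun σ _ => map_P0 σ, Measure.restrict_congr_set (cone_ae R)]
  ext s hs
  rw [withDensity_apply _ hs, Measure.restrict_restrict hs, Set.inter_iUnion₂,
    lintegral_biUnion_finset₀]
  · rw [Measure.finsetSum_apply]
    refine Finset.sum_congr rfl fun σ _ => ?_
    rw [withDensity_apply _ hs, Measure.restrict_restrict hs]
  · intro σ _ τ _ hne
    apply Disjoint.aedisjoint
    rw [Set.disjoint_left]
    rintro x ⟨_, hx⟩ ⟨_, hx'⟩
    exact hne (Ch_unique hx hx')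
  · intro σ _
    exact (hs.inter (Ch_meas σ)).nullMeasurableSet

end Pool.Agent.Helper94.KS
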